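import Pool.Agent.Helper52.ES.Spec

set_option autoImplicit false

/-! # Module LA: the exact length -/

namespace Pool.Agent.Helper45.ES

open Pool.Agent.Helper52.ES Pool.Agent.Helper52.Grid

theorem la_two_hm (p : Par) (W : ℕ) (fn : p.FN) (x y : ℕ) (h : p.h x y = 0) :
    (p.net W).Two (hm x y) := by
  refine ⟨p.st x y 3, p.st (x + 1) y 1, ?_, ?_, ?_⟩
  · unfold Par.st
    split_ifs <;> simp [coin, lat]
  · exact (fn.hm x y _).2 ⟨h, Or.inl rfl⟩
  · exact (fn.hm x y _).2 ⟨h, Or.inr rfl⟩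

theorem la_two_vm (p : Par) (W : ℕ) (fn : p.FN) (x y : ℕ) (h : p.v x y = 0) :
    (p.net W).Two (vm x y) := by
  refine ⟨p.st x y 2, p.st x (y + 1) 0, ?_, ?_, ?_⟩
  · unfold Par.st
    split_ifs <;> simp [coin, lat]
  · exact (fn.vm x y _).2 ⟨h, Or.inl rfl⟩
  · exact (fn.vm x y _).2 ⟨h, Or.inr rfl⟩

theorem la_two_coin (p : Par) (W : ℕ) (fn : p.FN) (i : ℕ) (hi : i < p.rows) (c : ℕ) (hc : c < 4)
    (k : ℕ) (hk : p.fk i c ≤ k) (hk' : k < p.e + 3) : (p.net W).Two (coin i c k) := by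
  refine ⟨_, _, ?_, (fn.coin i hi c hc k hk hk' _).2 (Or.inl rfl),
    (fn.coin i hi c hc k hk hk' _).2 (Or.inr rfl)⟩
  unfold Par.mid
  split_ifs <;> simp [coin, ring, hm, vm]

theorem la_ring (p : Par) (W : ℕ) (fn : p.FN) (i : ℕ) (hi : i < p.rows) (c : ℕ) (hc : c < 4) :
    ¬ (p.net W).Two (ring i c) := by
  rintro ⟨b, b', hne, h1, h2⟩
  rw [(fn.ring i hi c hc b).1 h1, (fn.ring i hi c hc b').1 h2] at hne
  exact hne rfl

set_option linter.unusedSimpArgs false in
theorem la_lat (p : Par) (W : ℕ) (fn : p.FN) (x y : ℕ) (h1 : p.fd x y ≠ 0)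
    (h2 : p.hub x y = false) : (p.net W).Two (lat x y) ↔ p.fd x y ≠ 1 := by
  have key := fn.lat x y
  constructor
  · rintro ⟨b, c, hne, hb, hc⟩ hfd
    have hb' := (key b h2).1 hb
    have hc' := (key c h2).1 hc
    unfold Par.fd at hfd
    rcases hb' with ⟨a1, rfl⟩ | ⟨a0, a1, rfl⟩ | ⟨a1, rfl⟩ | ⟨a0, a1, rfl⟩ <;>
      rcases hc' with ⟨d1, rfl⟩ | ⟨d0, d1, rfl⟩ | ⟨d1, rfl⟩ | ⟨d0, d1, rfl⟩ <;>
      first
        | exact hne rfl
        | (simp only [a1, d1, true_and, and_true, if_true, *] at hfd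
           split_ifs at hfd <;> omega)
  · intro hfd
    unfold Par.fd at h1 hfd
    by_cases c1 : p.h x y = 0 <;> by_cases c2 : (0 < x ∧ p.h (x - 1) y = 0) <;>
      by_cases c3 : p.v x y = 0 <;> by_cases c4 : (0 < y ∧ p.v x (y - 1) = 0)
    all_goals simp only [c1, c2, c3, c4, if_true, if_false] at h1 hfd
    all_goals first
      | exact absurd rfl h1
      | exact absurd rfl hfd
      | exact ⟨hm x y, vm x y, by simp [hm, vm], (key _ h2).2 (Or.inl ⟨c1, rfl⟩),
          (key _ h2).2 (Or.inr (Or.inr (Or.inl ⟨c3, rfl⟩)))⟩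
      | exact ⟨hm x y, hm (x - 1) y, by simp only [hm, ne_eq, Prod.mk.injEq]; omega,
          (key _ h2).2 (Or.inl ⟨c1, rfl⟩),
          (key _ h2).2 (Or.inr (Or.inl ⟨c2.1, c2.2, rfl⟩))⟩
      | exact ⟨hm x y, vm x (y - 1), by simp [hm, vm], (key _ h2).2 (Or.inl ⟨c1, rfl⟩),
          (key _ h2).2 (Or.inr (Or.inr (Or.inr ⟨c4.1, c4.2, rfl⟩)))⟩
      | exact ⟨hm (x - 1) y, vm x y, by simp [hm, vm],
          (key _ h2).2 (Or.inr (Or.inl ⟨c2.1, c2.2, rfl⟩)),
          (key _ h2).2 (Or.inr (Or.inr (Or.inl ⟨c3, rfl⟩)))⟩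
      | exact ⟨hm (x - 1) y, vm x (y - 1), by simp [hm, vm],
          (key _ h2).2 (Or.inr (Or.inl ⟨c2.1, c2.2, rfl⟩)),
          (key _ h2).2 (Or.inr (Or.inr (Or.inr ⟨c4.1, c4.2, rfl⟩)))⟩
      | exact ⟨vm x y, vm x (y - 1), by simp only [vm, ne_eq, Prod.mk.injEq]; omega,
          (key _ h2).2 (Or.inr (Or.inr (Or.inl ⟨c3, rfl⟩))),
          (key _ h2).2 (Or.inr (Or.inr (Or.inr ⟨c4.1, c4.2, rfl⟩)))⟩

open Classical in
/-- the summand -/
noncomputable def la_g (p : Par) (W : ℕ) (a : Vx) : ℝ := if (p.net W).Two a then 0 else p.rad a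

theorem la_g_lat (p : Par) (W : ℕ) (fn : p.FN) (x y : ℕ) (h1 : p.fd x y ≠ 0)
    (h2 : p.hub x y = false) : la_g p W (lat x y) = (p.one (lat x y) : ℝ) := by
  unfold la_g
  by_cases h : p.fd x y = 1
  · rw [if_neg (by rw [la_lat p W fn x y h1 h2]; exact fun hh => hh h)]
    unfold Par.rad Par.one
    simp only [if_true, h]
    split_ifs <;> push_cast <;> rfl
  · rw [if_pos ((la_lat p W fn x y h1 h2).2 h)]
    unfold Par.one
    simp [h]

theorem la_g_hm (p : Par) (W : ℕ) (fn : p.FN) (x y : ℕ) (h : p.h x y = 0) :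
    la_g p W (hm x y) = (p.one (hm x y) : ℝ) := by
  unfold la_g
  rw [if_pos (la_two_hm p W fn x y h)]
  simp [Par.one]

theorem la_g_vm (p : Par) (W : ℕ) (fn : p.FN) (x y : ℕ) (h : p.v x y = 0) :
    la_g p W (vm x y) = (p.one (vm x y) : ℝ) := by
  unfold la_g
  rw [if_pos (la_two_vm p W fn x y h)]
  simp [Par.one]

theorem la_g_coin (p : Par) (W : ℕ) (fk : p.FK) (fn : p.FN) (i : ℕ) (hi : i < p.rows) (c : ℕ)
    (hc : c < 4) (k : ℕ) (hk : p.cn i c k = true) (hk' : k < p.e + 3) :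
    la_g p W (coin i c k) = (p.one (coin i c k) : ℝ) := by
  unfold la_g
  rw [if_pos (la_two_coin p W fn i hi c hc k ((fk.cn i hi c hc k).1 hk) hk')]
  simp [Par.one]

theorem la_sum_map_congr {α : Type} (l : List α) (f g : α → ℝ) (h : ∀ a ∈ l, f a = g a) :
    (l.map f).sum = (l.map g).sum := by
  rw [List.map_congr_left h]

theorem la_sum_flatMap {α β : Type} (l : List α) (t : α → List β) (f : β → ℝ) :
    ((l.flatMap t).map f).sum = (l.map fun a => ((t a).map f).sum).sum := by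
  induction l with
  | nil => simp
  | cons a l ih => simp [List.flatMap_cons, ih]

theorem la_cell (p : Par) (W : ℕ) (fn : p.FN) (x y : ℕ) :
    ((p.vcell x y).map (la_g p W)).sum = ((p.vcell x y).map fun a => (p.one a : ℝ)).sum := by
  refine la_sum_map_congr _ _ _ ?_
  intro a ha
  unfold Par.vcell at ha
  rw [List.mem_append, List.mem_append] at ha
  rcases ha with ha | ha | ha
  · split_ifs at ha with hh
    · rw [List.mem_singleton] at ha
      subst ha
      exact la_g_lat p W fn x y (by omega) hh.2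
    · simp at ha
  · split_ifs at ha with hh
    · rw [List.mem_singleton] at ha
      subst ha
      exact la_g_hm p W fn x y hh
    · simp at ha
  · split_ifs at ha with hh
    · rw [List.mem_singleton] at ha
      subst ha
      exact la_g_vm p W fn x y hh
    · simp at ha

theorem la_arm (p : Par) (W : ℕ) (fk : p.FK) (fn : p.FN) (i : ℕ) (hi : i < p.rows) (c : ℕ)
    (hc : c < 4) : ((p.varm i c).map (la_g p W)).sum =
      ((p.varm i c).map fun a => (p.one a : ℝ)).sum + ((p.r2 i c : ℝ) / 2 - (p.one (ring i c) : ℝ)) := by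
  unfold Par.varm
  rw [List.map_cons, List.map_cons, List.sum_cons, List.sum_cons]
  have h1 : la_g p W (ring i c) = (p.r2 i c : ℝ) / 2 := by
    unfold la_g
    rw [if_neg (la_ring p W fn i hi c hc)]
    simp [Par.rad]
  have h2 : (((((List.range (p.e + 3)).filter fun k => p.cn i c k).map fun k => coin i c k)).map
      (la_g p W)).sum = (((((List.range (p.e + 3)).filter fun k => p.cn i c k).map
        fun k => coin i c k)).map fun a => (p.one a : ℝ)).sum := by
    refine la_sum_map_congr _ _ _ ?_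
    intro a ha
    rw [List.mem_map] at ha
    obtain ⟨k, hk, rfl⟩ := ha
    rw [List.mem_filter, List.mem_range] at hk
    exact la_g_coin p W fk fn i hi c hc k hk.2 hk.1
  rw [h1, h2]
  ring

theorem la_row (p : Par) (W : ℕ) (ok : p.Ok W) (fk : p.FK) (fn : p.FN) (i : ℕ) (hi : i < p.rows) :
    (((List.range 4).flatMap fun c => p.varm i c).map (la_g p W)).sum =
      (((List.range 4).flatMap fun c => p.varm i c).map fun a => (p.one a : ℝ)).sum := by
  have e4 : List.range 4 = [0, 1, 2, 3] := rfl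
  rw [la_sum_flatMap, la_sum_flatMap, e4]
  simp only [List.map_cons, List.map_nil, List.sum_cons, List.sum_nil]
  rw [la_arm p W fk fn i hi 0 (by norm_num), la_arm p W fk fn i hi 1 (by norm_num),
    la_arm p W fk fn i hi 2 (by norm_num), la_arm p W fk fn i hi 3 (by norm_num)]
  have hCR := ok.CR i hi
  simp only [Par.r2, Par.one]
  norm_num
  rw [Nat.cast_sub hCR]
  ring

theorem la (hLF : specLF) : specLA := by
  intro p W ok nf vm fk fn
  have h1 : (p.FL.map fun q => p.dst q.1 q.2).sum = (p.FL.map fun q => (p.l1 q.1 q.2 : ℝ)).sum := by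
    refine la_sum_map_congr _ _ _ ?_
    intro q hq
    exact (hLF p W ok nf vm fk fn q.1 q.2 (Or.inl hq)).1
  have h2 : (p.V.map (la_g p W)).sum = (p.V.map fun a => (p.one a : ℝ)).sum := by
    unfold Par.V
    rw [List.map_append, List.map_append, List.sum_append, List.sum_append]
    congr 1
    · rw [la_sum_flatMap, la_sum_flatMap]
      refine la_sum_map_congr _ _ _ ?_
      intro x _
      rw [la_sum_flatMap, la_sum_flatMap]
      refine la_sum_map_congr _ _ _ ?_
      intro y _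
      exact la_cell p W fn x y
    · rw [la_sum_flatMap, la_sum_flatMap]
      refine la_sum_map_congr _ _ _ ?_
      intro i hi
      exact la_row p W ok fk fn i (List.mem_range.1 hi)
  have h3 : (p.net W).Lam = (p.FL.map fun q => p.dst q.1 q.2).sum + (p.V.map (la_g p W)).sum := rfl
  rw [h3, h1, h2]
  unfold Par.Lam
  rw [Nat.cast_add]
  congr 1
  · rw [Nat.cast_list_sum, List.map_map]
    rfl
  · rw [Nat.cast_list_sum, List.map_map]
    rfl

end Pool.Agent.Helper45.ES
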